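import Mathlib
import Pool.Agent.H115D.Pos
import Pool.Agent.H115D.Neg

/-!
# Domatic number of graphs of bounded clique-width

The class of graphs of clique-width at most three is DOM-bounded; for every `t ≥ 4` the class
of graphs of clique-width at most `t` is not.
-/

namespace Pool.Agent.Results.MP_21a028_co.CliqueWidth

open H115D

/-- For `t ≥ 3`, the class of (nonempty finite) graphs of clique-width at most `t` is
DOM-bounded if and only if `t = 3`. -/
theorem result (t : ℕ) (ht : 3 ≤ t) :
    DOMBounded (fun V _ _ G => CliqueWidthLE t (V := V) G) ↔ t = 3 := by
  constructor
  · intro h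
    by_contra hne
    exact not_domBounded (by omega) h
  · rintro rfl
    exact domBounded_three

end Pool.Agent.Results.MP_21a028_co.CliqueWidth
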